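import Mathlib

/-!
An oriented matroid with an oriented single-element extension corresponding to a modular cut `𝓜`,
and a modular cut `𝓜' ⊆ 𝓜` that corresponds to no oriented single-element extension.
-/

set_option autoImplicit false

namespace Pool.Agent.Results.MP_6e3918_co.SubCut

/-- An oriented matroid on the finite ground set `α`, given by its signed circuits. -/
structure OM (α : Type) where
  /-- the signed circuits -/
  circ : Set (α → SignType)
  zero_notMem : (0 : α → SignType) ∉ circ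
  neg_mem : ∀ X ∈ circ, -X ∈ circ
  incomp : ∀ X ∈ circ, ∀ Y ∈ circ, (∀ a, X a ≠ 0 → Y a ≠ 0) → X = Y ∨ X = -Y
  elim : ∀ X ∈ circ, ∀ Y ∈ circ, X ≠ -Y → ∀ e, X e = 1 → Y e = -1 →
    ∃ Z ∈ circ, Z e = 0 ∧ ∀ f, Z f ≠ 0 → Z f = X f ∨ Z f = Y f

variable {α : Type} [DecidableEq α]

/-- The set `S` is independent in the underlying matroid: it contains no circuit. -/
def OM.Indep (O : OM α) (S : Finset α) : Prop := ∀ X ∈ O.circ, ¬ ∀ a, X a ≠ 0 → a ∈ S

/-- The rank function of the underlying matroid. -/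
noncomputable def OM.rk (O : OM α) (S : Finset α) : ℕ :=
  sSup {k | ∃ T ⊆ S, O.Indep T ∧ T.card = k}

/-- `F` is a flat of the underlying matroid: no circuit has exactly one element outside `F`. -/
def OM.IsFlat (O : OM α) (F : Finset α) : Prop :=
  ∀ X ∈ O.circ, ∀ x, X x ≠ 0 → (∀ a, X a ≠ 0 → a ≠ x → a ∈ F) → x ∈ F

/-- `𝓜` is a modular cut of the underlying matroid. -/
def OM.IsModularCut (O : OM α) (𝓜 : Set (Finset α)) : Prop :=
  (∀ F ∈ 𝓜, O.IsFlat F) ∧ (∀ F ∈ 𝓜, ∀ G, O.IsFlat G → F ⊆ G → G ∈ 𝓜) ∧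
    ∀ F ∈ 𝓜, ∀ G ∈ 𝓜, O.rk F + O.rk G = O.rk (F ∪ G) + O.rk (F ∩ G) → F ∩ G ∈ 𝓜

/-- `O'` on `α ∪ {p}` (with `p = none`) is a single-element extension of `O`: the deletion of `p`
is `O`. -/
def IsExt (O : OM α) (O' : OM (Option α)) : Prop :=
  ∀ X : Option α → SignType, X none = 0 → (X ∈ O'.circ ↔ (fun a => X (some a)) ∈ O.circ)

/-- The extension `O'` of `O` corresponds to `𝓜`: a flat `F` of `O` belongs to `𝓜` iff `p` lies in
its closure in the underlying matroid of `O'`, i.e. iff some circuit of `O'` contains `p` and is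
contained in `F ∪ {p}`. -/
def Corresponds (O : OM α) (O' : OM (Option α)) (𝓜 : Set (Finset α)) : Prop :=
  ∀ F, O.IsFlat F → (F ∈ 𝓜 ↔ ∃ X ∈ O'.circ, X none ≠ 0 ∧ ∀ a, X (some a) ≠ 0 → a ∈ F)

/-! ### The oriented matroid `M(K₄) ⊕ U₂,₂` -/

/-- The signed circuits of `K₄` (the elements `0, …, 5` are the edges `12, 13, 14, 23, 24, 34`; the
elements `6, 7` are coloops). -/
def T : Fin 14 → Fin 8 → SignType :=
  ![![1, -1, 0, 1, 0, 0, 0, 0], ![1, 0, -1, 0, 1, 0, 0, 0], ![0, 1, -1, 0, 0, 1, 0, 0],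
    ![0, 0, 0, 1, -1, 1, 0, 0], ![1, -1, 0, 0, 1, -1, 0, 0], ![1, 0, -1, 1, 0, 1, 0, 0],
    ![0, 1, -1, -1, 1, 0, 0, 0],
    ![-1, 1, 0, -1, 0, 0, 0, 0], ![-1, 0, 1, 0, -1, 0, 0, 0], ![0, -1, 1, 0, 0, -1, 0, 0],
    ![0, 0, 0, -1, 1, -1, 0, 0], ![-1, 1, 0, 0, -1, 1, 0, 0], ![-1, 0, 1, -1, 0, -1, 0, 0],
    ![0, -1, 1, 1, -1, 0, 0, 0]]

/-- The values of the signed circuits of the extension on the old elements. -/
def B : Fin 16 → Fin 8 → SignType :=
  ![![1, -1, 0, 1, 0, 0, 0, 0], ![1, 0, -1, 0, 1, 0, 0, 0], ![0, 1, -1, 0, 0, 1, 0, 0],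
    ![0, 0, 0, 1, -1, 1, 0, 0], ![1, -1, 0, 0, 1, -1, 0, 0], ![1, 0, -1, 1, 0, 1, 0, 0],
    ![0, 1, -1, -1, 1, 0, 0, 0],
    ![-1, 1, 0, -1, 0, 0, 0, 0], ![-1, 0, 1, 0, -1, 0, 0, 0], ![0, -1, 1, 0, 0, -1, 0, 0],
    ![0, 0, 0, -1, 1, -1, 0, 0], ![-1, 1, 0, 0, -1, 1, 0, 0], ![-1, 0, 1, -1, 0, -1, 0, 0],
    ![0, -1, 1, 1, -1, 0, 0, 0],
    ![0, 0, 0, 0, 0, 0, 1, 1], ![0, 0, 0, 0, 0, 0, -1, -1]]

/-- The values of the signed circuits of the extension on the new element. -/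
def c : Fin 16 → SignType := ![0, 0, 0, 0, 0, 0, 0, 0, 0, 0, 0, 0, 0, 0, -1, 1]

/-- The signed circuits of the extension. -/
def T' (i : Fin 16) (o : Option (Fin 8)) : SignType :=
  match o with
  | none => c i
  | some a => B i a

lemma T_ne : ∀ i : Fin 14, ∃ a, T i a ≠ 0 := by decide +kernel

lemma T_neg : ∀ i : Fin 14, ∃ j, ∀ a, T j a = - T i a := by decide +kernel

lemma T_incomp : ∀ i j : Fin 14, (∀ a, T i a ≠ 0 → T j a ≠ 0) →
    (∀ a, T i a = T j a) ∨ ∀ a, T i a = - T j a := by decide +kernel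

lemma T_elim : ∀ i j : Fin 14, ∀ e : Fin 8, T i e = 1 → T j e = -1 →
    (∀ a, T i a = - T j a) ∨ ∃ k : Fin 14, T k e = 0 ∧
      ∀ f, T k f = 0 ∨ T k f = T i f ∨ T k f = T j f := by decide +kernel

lemma T'_ne : ∀ i : Fin 16, ∃ a, T' i a ≠ 0 := by decide +kernel

lemma T'_neg : ∀ i : Fin 16, ∃ j, ∀ a, T' j a = - T' i a := by decide +kernel

lemma T'_incomp : ∀ i j : Fin 16, (∀ a, T' i a ≠ 0 → T' j a ≠ 0) →
    (∀ a, T' i a = T' j a) ∨ ∀ a, T' i a = - T' j a := by decide +kernel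

lemma T'_elim : ∀ i j : Fin 16, ∀ e : Option (Fin 8), T' i e = 1 → T' j e = -1 →
    (∀ a, T' i a = - T' j a) ∨ ∃ k : Fin 16, T' k e = 0 ∧
      ∀ f, T' k f = 0 ∨ T' k f = T' i f ∨ T' k f = T' j f := by decide +kernel

/-- An oriented matroid from a table of signed circuits. -/
def ofTable {β : Type} {n : ℕ} (U : Fin n → β → SignType) (h1 : ∀ i, ∃ a, U i a ≠ 0)
    (h2 : ∀ i, ∃ j, ∀ a, U j a = - U i a)
    (h3 : ∀ i j, (∀ a, U i a ≠ 0 → U j a ≠ 0) → (∀ a, U i a = U j a) ∨ ∀ a, U i a = - U j a)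
    (h4 : ∀ i j e, U i e = 1 → U j e = -1 → (∀ a, U i a = - U j a) ∨
      ∃ k, U k e = 0 ∧ ∀ f, U k f = 0 ∨ U k f = U i f ∨ U k f = U j f) : OM β where
  circ := Set.range U
  zero_notMem := by
    rintro ⟨i, hi⟩
    obtain ⟨a, ha⟩ := h1 i
    exact ha (congrFun hi a)
  neg_mem := by
    rintro _ ⟨i, rfl⟩
    obtain ⟨j, hj⟩ := h2 i
    exact ⟨j, funext hj⟩
  incomp := by
    rintro _ ⟨i, rfl⟩ _ ⟨j, rfl⟩ h
    rcases h3 i j h with h | h
    · exact Or.inl (funext h)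
    · exact Or.inr (funext h)
  elim := by
    rintro _ ⟨i, rfl⟩ _ ⟨j, rfl⟩ hne e h5 h6
    rcases h4 i j e h5 h6 with h | ⟨k, hk, hk'⟩
    · exact absurd (funext h) hne
    · refine ⟨U k, ⟨k, rfl⟩, hk, fun f hf => ?_⟩
      rcases hk' f with h | h
      · exact absurd h hf
      · exact h

/-- The oriented matroid `M(K₄) ⊕ U₂,₂`. -/
def O₁ : OM (Fin 8) := ofTable T T_ne T_neg T_incomp T_elim

/-- The oriented matroid `M(K₄) ⊕ U₂,₃`. -/
def O₂ : OM (Option (Fin 8)) := ofTable T' T'_ne T'_neg T'_incomp T'_elim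

lemma mem₁ {X : Fin 8 → SignType} : X ∈ O₁.circ ↔ ∃ i, T i = X := Iff.rfl

lemma mem₂ {X : Option (Fin 8) → SignType} : X ∈ O₂.circ ↔ ∃ i, T' i = X := Iff.rfl

lemma table_ext : ∀ i : Fin 16, T' i none = 0 → ∃ j : Fin 14, ∀ a, T j a = B i a := by
  decide +kernel

lemma table_ext' : ∀ j : Fin 14, ∃ i : Fin 16, T' i none = 0 ∧ ∀ a, T j a = B i a := by
  decide +kernel

lemma isExt : IsExt O₁ O₂ := by
  intro X hX
  rw [mem₁, mem₂]
  constructor
  · rintro ⟨i, rfl⟩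
    obtain ⟨j, hj⟩ := table_ext i hX
    exact ⟨j, funext hj⟩
  · rintro ⟨j, hj⟩
    obtain ⟨i, hi, hi'⟩ := table_ext' j
    refine ⟨i, ?_⟩
    funext o
    cases o with
    | none => rw [hi, hX]
    | some a =>
      change B i a = X (some a)
      rw [← hi' a]
      exact congrFun hj a

/-- The first modular cut: the flats that contain both coloops. -/
def M₁ : Set (Finset (Fin 8)) := {F | O₁.IsFlat F ∧ 6 ∈ F ∧ 7 ∈ F}

/-- The three flats spanned by a pair of opposite edges and the two coloops. -/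
def P : Fin 3 → Finset (Fin 8) := ![{0, 5, 6, 7}, {1, 4, 6, 7}, {2, 3, 6, 7}]

/-- The second modular cut. -/
def M₂ : Set (Finset (Fin 8)) := {F | (∃ i, F = P i) ∨ F = Finset.univ}

lemma isFlat_iff (F : Finset (Fin 8)) : O₁.IsFlat F ↔
    ∀ i : Fin 14, ∀ x, T i x ≠ 0 → (∀ a, T i a ≠ 0 → a ≠ x → a ∈ F) → x ∈ F := by
  constructor
  · intro h i
    exact h _ (mem₁.2 ⟨i, rfl⟩)
  · rintro h _ ⟨i, rfl⟩
    exact h i

lemma flat_inter {O : OM (Fin 8)} {F G : Finset (Fin 8)} (hF : O.IsFlat F) (hG : O.IsFlat G) :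
    O.IsFlat (F ∩ G) := by
  intro X hX x hx h
  exact Finset.mem_inter.2 ⟨hF X hX x hx fun a ha hax => (Finset.mem_inter.1 (h a ha hax)).1,
    hG X hX x hx fun a ha hax => (Finset.mem_inter.1 (h a ha hax)).2⟩

lemma cut₁ : O₁.IsModularCut M₁ := by
  refine ⟨fun F hF => hF.1, fun F hF G hG hFG => ⟨hG, hFG hF.2.1, hFG hF.2.2⟩, ?_⟩
  intro F hF G hG _
  exact ⟨flat_inter hF.1 hG.1, Finset.mem_inter.2 ⟨hF.2.1, hG.2.1⟩,
    Finset.mem_inter.2 ⟨hF.2.2, hG.2.2⟩⟩

lemma table_p : ∀ i : Fin 16, T' i none ≠ 0 → B i 6 ≠ 0 ∧ B i 7 ≠ 0 := by decide +kernel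

lemma table_p' : ∀ a : Fin 8, B 14 a ≠ 0 → a = 6 ∨ a = 7 := by decide +kernel

lemma corr₁ : Corresponds O₁ O₂ M₁ := by
  intro F hF
  constructor
  · rintro ⟨-, h6, h7⟩
    refine ⟨T' 14, mem₂.2 ⟨14, rfl⟩, by decide, ?_⟩
    intro a ha
    rcases table_p' a ha with rfl | rfl
    · exact h6
    · exact h7
  · rintro ⟨X, hX, hX0, hXF⟩
    obtain ⟨i, rfl⟩ := mem₂.1 hX
    obtain ⟨h6, h7⟩ := table_p i hX0
    exact ⟨hF, hXF 6 h6, hXF 7 h7⟩

lemma flat_P : ∀ i : Fin 3, ∀ j : Fin 14, ∀ x, T j x ≠ 0 →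
    (∀ a, T j a ≠ 0 → a ≠ x → a ∈ P i) → x ∈ P i := by decide +kernel

lemma above_P : ∀ i : Fin 3, ∀ G : Finset (Fin 8), P i ⊆ G →
    (∀ j : Fin 14, ∀ x, T j x ≠ 0 → (∀ a, T j a ≠ 0 → a ≠ x → a ∈ G) → x ∈ G) →
    G = P i ∨ G = Finset.univ := by decide +kernel

lemma rk_le (O : OM (Fin 8)) (S : Finset (Fin 8)) (n : ℕ)
    (h : ∀ U ⊆ S, O.Indep U → U.card ≤ n) : O.rk S ≤ n := by
  apply csSup_le'
  rintro k ⟨U, hU, hI, rfl⟩
  exact h U hU hI

lemma le_rk (O : OM (Fin 8)) {S U : Finset (Fin 8)} (hU : U ⊆ S) (hI : O.Indep U) :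
    U.card ≤ O.rk S := by
  apply le_csSup
  · refine ⟨S.card, ?_⟩
    rintro k ⟨V, hV, -, rfl⟩
    exact Finset.card_le_card hV
  · exact ⟨U, hU, hI, rfl⟩

lemma indep_P : ∀ i : Fin 3, ∀ j : Fin 14, ¬ ∀ a, T j a ≠ 0 → a ∈ P i := by decide +kernel

lemma dep_P : ∀ i j : Fin 3, i ≠ j → ∃ k : Fin 14, ∀ a, T k a ≠ 0 → a ∈ P i ∪ P j := by
  decide +kernel

lemma card_P : ∀ i j : Fin 3, (P i).card = 4 ∧ (i ≠ j → (P i ∪ P j).card = 6 ∧
    (P i ∩ P j).card = 2) := by decide +kernel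

lemma cut₂ : O₁.IsModularCut M₂ := by
  refine ⟨?_, ?_, ?_⟩
  · rintro F (⟨i, rfl⟩ | rfl)
    · rw [isFlat_iff]
      exact flat_P i
    · exact fun _ _ _ _ _ => Finset.mem_univ _
  · rintro F (⟨i, rfl⟩ | rfl) G hG hFG
    · rw [isFlat_iff] at hG
      rcases above_P i G hFG hG with h | h
      · exact Or.inl ⟨i, h⟩
      · exact Or.inr h
    · exact Or.inr (Finset.univ_subset_iff.1 hFG)
  · rintro F (⟨i, rfl⟩ | rfl) G (⟨j, rfl⟩ | rfl) hr
    · by_cases hij : i = j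
      · subst hij
        rw [Finset.inter_self]
        exact Or.inl ⟨i, rfl⟩
      · exfalso
        have h1 : 4 ≤ O₁.rk (P i) := by
          rw [← (card_P i i).1]
          apply le_rk _ (Finset.Subset.refl _)
          rintro _ ⟨k, rfl⟩
          exact indep_P i k
        have h2 : 4 ≤ O₁.rk (P j) := by
          rw [← (card_P j j).1]
          apply le_rk _ (Finset.Subset.refl _)
          rintro _ ⟨k, rfl⟩
          exact indep_P j k
        have h3 : O₁.rk (P i ∩ P j) ≤ 2 := by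
          apply rk_le
          intro U hU _
          rw [← ((card_P i j).2 hij).2]
          exact Finset.card_le_card hU
        have h4 : O₁.rk (P i ∪ P j) ≤ 5 := by
          apply rk_le
          intro U hU hI
          have h5 := Finset.card_le_card hU
          rw [((card_P i j).2 hij).1] at h5
          by_contra hcon
          have h6 : U = P i ∪ P j := Finset.eq_of_subset_of_card_le hU
            (by rw [((card_P i j).2 hij).1]; omega)
          obtain ⟨k, hk⟩ := dep_P i j hij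
          rw [h6] at hI
          exact hI _ (mem₁.2 ⟨k, rfl⟩) hk
        omega
    · rw [Finset.inter_univ]
      exact Or.inl ⟨i, rfl⟩
    · rw [Finset.univ_inter]
      exact Or.inl ⟨j, rfl⟩
    · rw [Finset.univ_inter]
      exact Or.inr rfl

lemma sub : M₂ ⊆ M₁ := by
  intro F hF
  refine ⟨cut₂.1 F hF, ?_, ?_⟩
  · rcases hF with ⟨i, rfl⟩ | rfl
    · revert i
      decide
    · exact Finset.mem_univ _
  · rcases hF with ⟨i, rfl⟩ | rfl
    · revert i
      decide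
    · exact Finset.mem_univ _

/-! ### There is no oriented extension for the second modular cut -/

lemma exists_X {O : OM (Option (Fin 8))} (hc : Corresponds O₁ O M₂) (i : Fin 3) :
    ∃ X ∈ O.circ, X none = 1 ∧ ∀ a, X (some a) ≠ 0 → a ∈ P i := by
  obtain ⟨X, hX, h0, hP⟩ := (hc (P i) (cut₂.1 _ (Or.inl ⟨i, rfl⟩))).1 (Or.inl ⟨i, rfl⟩)
  have hs : ∀ s : SignType, s ≠ 0 → s = 1 ∨ -s = 1 := by decide
  rcases hs _ h0 with h | h
  · exact ⟨X, hX, h, hP⟩
  · refine ⟨-X, O.neg_mem X hX, h, ?_⟩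
    intro a ha
    apply hP
    intro h'
    apply ha
    rw [Pi.neg_apply, h', neg_zero]

lemma key {O : OM (Option (Fin 8))} (he : IsExt O₁ O) {X Y : Option (Fin 8) → SignType}
    (hX : X ∈ O.circ) (hY : Y ∈ O.circ) (hX0 : X none = 1) (hY0 : Y none = 1) (hne : X ≠ Y) :
    ∃ k : Fin 14, ∀ a, T k a ≠ 0 → T k a = X (some a) ∨ T k a = - Y (some a) := by
  obtain ⟨Z, hZ, hZ0, hZ'⟩ := O.elim X hX (-Y) (O.neg_mem Y hY) (by rwa [neg_neg]) none hX0
    (by rw [Pi.neg_apply, hY0])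
  obtain ⟨k, hk⟩ := mem₁.1 ((he Z hZ0).1 hZ)
  refine ⟨k, fun a ha => ?_⟩
  rw [hk] at ha ⊢
  exact hZ' (some a) ha

lemma final₁ : ∀ k : Fin 14, T k 2 = 0 → T k 3 = 0 → T k 0 ≠ 0 ∧ T k 0 = - T k 5 := by
  decide +kernel

lemma final₂ : ∀ k : Fin 14, T k 1 = 0 → T k 4 = 0 → T k 0 ≠ 0 ∧ T k 0 = T k 5 := by
  decide +kernel

lemma no_ext : ¬ ∃ O : OM (Option (Fin 8)), IsExt O₁ O ∧ Corresponds O₁ O M₂ := by
  rintro ⟨O, he, hc⟩
  obtain ⟨X, hX, hX0, hXP⟩ := exists_X hc 0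
  obtain ⟨Y, hY, hY0, hYP⟩ := exists_X hc 1
  obtain ⟨Z, hZ, hZ0, hZP⟩ := exists_X hc 2
  have zX : ∀ a, a ∉ P 0 → X (some a) = 0 := fun a ha => by
    by_contra h
    exact ha (hXP a h)
  have zY : ∀ a, a ∉ P 1 → Y (some a) = 0 := fun a ha => by
    by_contra h
    exact ha (hYP a h)
  have zZ : ∀ a, a ∉ P 2 → Z (some a) = 0 := fun a ha => by
    by_contra h
    exact ha (hZP a h)
  -- `X` does not vanish at `0`
  have hX00 : X (some 0) ≠ 0 := by
    intro h0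
    have hF : O₁.IsFlat {5, 6, 7} := by
      rw [isFlat_iff]
      decide +kernel
    have h1 : ({5, 6, 7} : Finset (Fin 8)) ∈ M₂ := by
      rw [hc _ hF]
      refine ⟨X, hX, by rw [hX0]; decide, ?_⟩
      intro a ha
      have h2 := hXP a ha
      have h3 : a ≠ 0 := by
        rintro rfl
        exact ha h0
      have h4 : ∀ b : Fin 8, b ∈ P 0 → b ≠ 0 → b ∈ ({5, 6, 7} : Finset (Fin 8)) := by decide
      exact h4 a h2 h3
    rcases h1 with ⟨i, hi⟩ | h1
    · revert i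
      decide
    · revert h1
      decide
  have hne1 : X ≠ Y := by
    rintro rfl
    exact hX00 (zY 0 (by decide))
  have hne2 : X ≠ Z := by
    rintro rfl
    exact hX00 (zZ 0 (by decide))
  obtain ⟨k, hk⟩ := key he hX hY hX0 hY0 hne1
  obtain ⟨l, hl⟩ := key he hX hZ hX0 hZ0 hne2
  have hk2 : T k 2 = 0 := by
    by_contra h
    rcases hk 2 h with h' | h'
    · rw [zX 2 (by decide)] at h'
      exact h h'
    · rw [zY 2 (by decide), neg_zero] at h'
      exact h h'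
  have hk3 : T k 3 = 0 := by
    by_contra h
    rcases hk 3 h with h' | h'
    · rw [zX 3 (by decide)] at h'
      exact h h'
    · rw [zY 3 (by decide), neg_zero] at h'
      exact h h'
  have hl1 : T l 1 = 0 := by
    by_contra h
    rcases hl 1 h with h' | h'
    · rw [zX 1 (by decide)] at h'
      exact h h'
    · rw [zZ 1 (by decide), neg_zero] at h'
      exact h h'
  have hl4 : T l 4 = 0 := by
    by_contra h
    rcases hl 4 h with h' | h'
    · rw [zX 4 (by decide)] at h'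
      exact h h'
    · rw [zZ 4 (by decide), neg_zero] at h'
      exact h h'
  obtain ⟨k0, k5⟩ := final₁ k hk2 hk3
  obtain ⟨l0, l5⟩ := final₂ l hl1 hl4
  have neg_ne : ∀ s : SignType, s ≠ 0 → -s ≠ 0 := by decide
  have e1 : T k 0 = X (some 0) := by
    rcases hk 0 k0 with h | h
    · exact h
    · rw [zY 0 (by decide), neg_zero] at h
      exact absurd h k0
  have e2 : T k 5 = X (some 5) := by
    have k5' : T k 5 ≠ 0 := by
      intro h
      rw [h, neg_zero] at k5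
      exact k0 k5
    rcases hk 5 k5' with h | h
    · exact h
    · rw [zY 5 (by decide), neg_zero] at h
      exact absurd h k5'
  have e3 : T l 0 = X (some 0) := by
    rcases hl 0 l0 with h | h
    · exact h
    · rw [zZ 0 (by decide), neg_zero] at h
      exact absurd h l0
  have e4 : T l 5 = X (some 5) := by
    have l5' : T l 5 ≠ 0 := by
      rw [← l5]
      exact l0
    rcases hl 5 l5' with h | h
    · exact h
    · rw [zZ 5 (by decide), neg_zero] at h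
      exact absurd h l5'
  rw [e1, e2] at k5
  rw [e3, e4] at l5
  have hs : ∀ s t : SignType, s ≠ 0 → s = -t → s = t → False := by decide
  exact hs _ _ hX00 k5 l5

/-- **Counterexample.** There are an oriented matroid `O` on eight elements, a single-element
extension `O'` of `O` corresponding to a modular cut `𝓜`, and a modular cut `𝓜' ⊆ 𝓜` to which no
single-element extension of `O` corresponds. (Moreover every member of `𝓜` has at least two
elements, so that the new element of `O'` is neither a loop nor parallel to an element.) -/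
theorem result : ∃ (O : OM (Fin 8)) (O' : OM (Option (Fin 8))) (𝓜 𝓜' : Set (Finset (Fin 8))),
    IsExt O O' ∧ O.IsModularCut 𝓜 ∧ Corresponds O O' 𝓜 ∧ (∀ F ∈ 𝓜, 2 ≤ F.card) ∧
    O.IsModularCut 𝓜' ∧ 𝓜' ⊆ 𝓜 ∧
    ¬ ∃ O'' : OM (Option (Fin 8)), IsExt O O'' ∧ Corresponds O O'' 𝓜' := by
  refine ⟨O₁, O₂, M₁, M₂, isExt, cut₁, corr₁, ?_, cut₂, sub, no_ext⟩
  rintro F ⟨-, h6, h7⟩
  have h : ({6, 7} : Finset (Fin 8)) ⊆ F := by
    intro a ha
    rw [Finset.mem_insert, Finset.mem_singleton] at ha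
    rcases ha with rfl | rfl
    · exact h6
    · exact h7
  exact Finset.card_le_card h

end Pool.Agent.Results.MP_6e3918_co.SubCut
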